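import Pool.Agent.H163R2.CdV.T1
import Pool.Agent.H163R2.CdV.C2
import Pool.Agent.H163R2.CdV.V

set_option autoImplicit false

/-! TASK BD of project CdV (helper163): table h163_tasks, statement must not change. -/

namespace Pool.Agent.H163R2.CdV

open Finset Matrix Topology

/-- `MuGE` is monotone. -/
theorem MuGE.anti {V : Type} [Fintype V] [DecidableEq V] {G : SimpleGraph V} {k k' : ℕ}
    (h : MuGE G k) (hk : k' ≤ k) : MuGE G k' := by
  obtain ⟨M, hM, h1, h2, h3, h4, h5⟩ := h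
  exact ⟨M, hM, h1, h2, h3, h4, hk.trans h5⟩

section Build

variable {V : Type} [DecidableEq V] {k : ℕ}

open Classical in
/-- the partner map -/
noncomputable def xmap (Ys : Finset V) (a b : Fin k → V) (σ : Equiv.Perm (Fin k))
    (bad : Finset (Fin k)) (y0 : V) (haY : ∀ j, a j ∉ Ys) (y : {v // v ∈ Ys}) :
    Option {v // ¬ v ∈ Ys} :=
  if h : ∃ i, i ∉ bad ∧ b i = y.1 ∧ y.1 ≠ y0 then some ⟨a (σ h.choose), haY _⟩ else none

theorem xmap_some {Ys : Finset V} {a b : Fin k → V} {σ : Equiv.Perm (Fin k)}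
    {bad : Finset (Fin k)} {y0 : V} {haY : ∀ j, a j ∉ Ys} (hb : Function.Injective b)
    {y : {v // v ∈ Ys}} {z : {v // ¬ v ∈ Ys}} :
    xmap Ys a b σ bad y0 haY y = some z ↔
      ∃ i, i ∉ bad ∧ b i = y.1 ∧ y.1 ≠ y0 ∧ z.1 = a (σ i) := by
  unfold xmap
  constructor
  · intro h
    split_ifs at h with hc
    have hs := hc.choose_spec
    refine ⟨hc.choose, hs.1, hs.2.1, hs.2.2, ?_⟩
    have := Option.some.inj h
    rw [← this]
  · rintro ⟨i, h1, h2, h3, h4⟩
    have hc : ∃ i, i ∉ bad ∧ b i = y.1 ∧ y.1 ≠ y0 := ⟨i, h1, h2, h3⟩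
    rw [dif_pos hc]
    have hs := hc.choose_spec
    have : hc.choose = i := hb (hs.2.1.trans h2.symm)
    congr 1
    apply Subtype.ext
    rw [h4]
    simp only
    rw [this]

end Build

/-- TASK BD (assembly of the data from the pairing; from T1, C2, V). -/
theorem build {V : Type} [Fintype V] [DecidableEq V] (G : SimpleGraph V) [DecidableRel G.Adj]
    (D K k m : ℕ) (hK : 1 ≤ K) (W : Finset V) (hW : ∀ v ∈ W, Gᶜ.degree v ≤ D)
    (a b t : Fin k → V) (hM : Mat Gᶜ W a b t) (σ : Equiv.Perm (Fin k)) (bad : Finset (Fin k))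
    (hσ : ∀ i, i ∉ bad → ¬ Gᶜ.Adj (a (σ i)) (b i) ∧ ¬ Gᶜ.Adj (a (σ i)) (t i) ∧
        (Finset.univ.filter (fun j => Gᶜ.Adj (b i) (b j) ∧ Gᶜ.Adj (a (σ i)) (b j) ∧
          Gᶜ.Adj (a (σ j)) (b i))).card ≤ K)
    (hm : 6000 * (K : ℝ) ^ 2 * Real.log (2 * Fintype.card V) < m)
    (hne : k + bad.card < W.card) :
    MuGE G (W.card - k - bad.card - D - m - 1) := by
  classical
  -- the unmatched vertices and the good `b`'s
  obtain ⟨Y0, hY0⟩ : ∃ Y0 : Finset V, Y0 = W.filter (fun u => ∀ i, u ≠ a i ∧ u ≠ b i) ∪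
      (univ \ bad).image b := ⟨_, rfl⟩
  have memY0 : ∀ u, u ∈ Y0 ↔ (u ∈ W ∧ ∀ i, u ≠ a i ∧ u ≠ b i) ∨ ∃ i, i ∉ bad ∧ b i = u := by
    intro u
    rw [hY0]
    simp
  have Y0W : ∀ u ∈ Y0, u ∈ W := by
    intro u hu
    rcases (memY0 u).1 hu with h | ⟨i, _, h⟩
    · exact h.1
    · exact h ▸ hM.hbW i
  have haY0 : ∀ j, a j ∉ Y0 := by
    intro j hj
    rcases (memY0 _).1 hj with h | ⟨i, _, h⟩
    · exact (h.2 j).1 rfl
    · exact hM.hab j i h.symm
  have hcard0 : W.card ≤ Y0.card + k + bad.card := by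
    have hsub : W ⊆ (Y0 ∪ univ.image a) ∪ bad.image b := by
      intro u hu
      simp only [mem_union, mem_image, mem_univ, true_and]
      by_cases h : ∀ i, u ≠ a i ∧ u ≠ b i
      · left; left; exact (memY0 u).2 (Or.inl ⟨hu, h⟩)
      · push Not at h
        obtain ⟨i, hi⟩ := h
        by_cases h1 : u = a i
        · left; right; exact ⟨i, h1.symm⟩
        · have h2 := hi h1
          by_cases h3 : i ∈ bad
          · right; exact ⟨i, h3, h2.symm⟩
          · left; left; exact (memY0 u).2 (Or.inr ⟨i, h3, h2.symm⟩)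
    calc W.card ≤ _ := card_le_card hsub
      _ ≤ (Y0 ∪ univ.image a).card + (bad.image b).card := card_union_le _ _
      _ ≤ (Y0.card + (univ.image a).card) + (bad.image b).card :=
          Nat.add_le_add_right (card_union_le _ _) _
      _ ≤ (Y0.card + k) + bad.card := by
          have h1 : (univ.image a).card ≤ k := by
            simpa using (card_image_le (s := (univ : Finset (Fin k))) (f := a))
          have h2 : (bad.image b).card ≤ bad.card := card_image_le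
          omega
  have hpos : 0 < Y0.card := by omega
  obtain ⟨y0, hy0⟩ := card_pos.1 hpos
  obtain ⟨Ys, hYs⟩ : ∃ Ys : Finset V, Ys = Y0.filter (fun y => ¬ Gᶜ.Adj y0 y) := ⟨_, rfl⟩
  have memYs : ∀ u, u ∈ Ys ↔ u ∈ Y0 ∧ ¬ Gᶜ.Adj y0 u := by
    intro u
    rw [hYs, mem_filter]
  have hcard1 : Y0.card ≤ Ys.card + D := by
    have hsub : Y0 ⊆ Ys ∪ Gᶜ.neighborFinset y0 := by
      intro u hu
      by_cases h : Gᶜ.Adj y0 u
      · exact mem_union_right _ ((SimpleGraph.mem_neighborFinset _ _ _).2 h)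
      · exact mem_union_left _ ((memYs u).2 ⟨hu, h⟩)
    calc Y0.card ≤ _ := card_le_card hsub
      _ ≤ Ys.card + (Gᶜ.neighborFinset y0).card := card_union_le _ _
      _ ≤ Ys.card + D := Nat.add_le_add_left (hW y0 (Y0W y0 hy0)) _
  have hy0s : y0 ∈ Ys := (memYs y0).2 ⟨hy0, Gᶜ.loopless.irrefl y0⟩
  have haY : ∀ j, a j ∉ Ys := fun j hj => haY0 j ((memYs _).1 hj).1
  -- the types
  let X : Type := {v // ¬ v ∈ Ys}
  let Y : Type := {v // v ∈ Ys}
  let e : X ⊕ Y ≃ V := (Equiv.sumComm X Y).trans (Equiv.sumCompl (fun v => v ∈ Ys))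
  have el : ∀ z : X, e (Sum.inl z) = z.1 := fun z => rfl
  have er : ∀ y : Y, e (Sum.inr y) = y.1 := fun y => rfl
  let x : Y → Option X := xmap Ys a b σ bad y0 haY
  have xs : ∀ (y : Y) (z : X), x y = some z ↔
      ∃ i, i ∉ bad ∧ b i = y.1 ∧ y.1 ≠ y0 ∧ z.1 = a (σ i) := fun y z => xmap_some hM.hb
  let cov : Y → Y → Prop := fun c l =>
    c ≠ l ∧ ¬ G.Adj c.1 l.1 ∧ ∃ z : X, x c = some z ∧ G.Adj z.1 l.1
  let r : Y ≃ Fin (Fintype.card Y) := Fintype.equivFin Y
  let C : Y → Y → Prop := fun c l => cov c l ∧ (¬ cov l c ∨ r c < r l)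
  have hCC : ∀ y y' : Y, y ≠ y' → ¬ C y y' → ¬ C y' y → ¬ cov y y' ∧ ¬ cov y' y := by
    intro y y' hne' h1 h2
    have hrr : r y ≠ r y' := fun h => hne' (r.injective h)
    constructor
    · intro hc
      by_cases hc' : cov y' y
      · rcases lt_or_gt_of_ne hrr with h | h
        · exact h1 ⟨hc, Or.inr h⟩
        · exact h2 ⟨hc', Or.inr h⟩
      · exact h1 ⟨hc, Or.inl hc'⟩
    · intro hc
      by_cases hc' : cov y y'
      · rcases lt_or_gt_of_ne hrr with h | h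
        · exact h1 ⟨hc', Or.inr h⟩
        · exact h2 ⟨hc, Or.inr h⟩
      · exact h2 ⟨hc, Or.inl hc'⟩
  let F : SimpleGraph Y :=
    { Adj := fun y y' => y ≠ y' ∧ ¬ G.Adj y.1 y'.1 ∧ ¬ C y y' ∧ ¬ C y' y
      symm := ⟨fun y y' h => ⟨h.1.symm, fun h' => h.2.1 h'.symm, h.2.2.2, h.2.2.1⟩⟩
      loopless := ⟨fun y h => h.1 rfl⟩ }
  have hF : ∀ y y' : Y, F.Adj y y' ↔ y ≠ y' ∧ ¬ G.Adj y.1 y'.1 ∧ ¬ C y y' ∧ ¬ C y' y :=
    fun y y' => Iff.rfl
  have hcomp : ∀ u v : V, Gᶜ.Adj u v ↔ u ≠ v ∧ ¬ G.Adj u v := fun u v =>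
    SimpleGraph.compl_adj G u v
  -- one endpoint of an `F`-edge is not unmatched
  have hkey : ∀ y y' : Y, F.Adj y y' → ∃ i, i ∉ bad ∧ b i = y.1 ∧ y.1 ≠ y0 := by
    intro y y' hyy
    obtain ⟨h1, h2, h3, h4⟩ := (hF y y').1 hyy
    obtain ⟨h5, h6⟩ := hCC y y' h1 h3 h4
    have hne1 : y.1 ≠ y'.1 := fun h => h1 (Subtype.ext h)
    have hc1 : Gᶜ.Adj y.1 y'.1 := (hcomp _ _).2 ⟨hne1, h2⟩
    have hy0' : y.1 ≠ y0 := by
      intro h
      exact ((memYs _).1 y'.2).2 (h ▸ hc1)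
    have hy0'' : y'.1 ≠ y0 := by
      intro h
      exact ((memYs _).1 y.2).2 (h ▸ hc1.symm)
    rcases (memY0 _).1 ((memYs _).1 y.2).1 with ⟨hyW, hyU⟩ | ⟨i, hi1, hi2⟩
    · exfalso
      rcases (memY0 _).1 ((memYs _).1 y'.2).1 with ⟨hyW', hyU'⟩ | ⟨i, hi1, hi2⟩
      · exact hM.indep _ hyW _ hyW' hyU hyU' hc1
      · have ht : y.1 = t i := hM.one i _ hyW hyU (hi2 ▸ hc1.symm)
        apply h6
        refine ⟨h1.symm, fun h => h2 h.symm, ⟨a (σ i), haY _⟩, (xs _ _).2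
          ⟨i, hi1, hi2, hy0'', rfl⟩, ?_⟩
        have hn := (hσ i hi1).2.1
        rw [← ht, hcomp] at hn
        by_contra hnG
        exact hn ⟨fun h => (hyU (σ i)).1 h.symm, hnG⟩
    · exact ⟨i, hi1, hi2, hy0'⟩
  have hdeg : ∀ y, F.degree y ≤ K := by
    intro y
    by_cases hy : ∃ i, i ∉ bad ∧ b i = y.1 ∧ y.1 ≠ y0
    · obtain ⟨i, hi1, hi2, hi3⟩ := hy
      have hsub : (F.neighborFinset y).image Subtype.val ⊆
          (Finset.univ.filter (fun j => Gᶜ.Adj (b i) (b j) ∧ Gᶜ.Adj (a (σ i)) (b j) ∧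
          Gᶜ.Adj (a (σ j)) (b i))).image b := by
        intro u hu
        obtain ⟨y', hy', rfl⟩ := mem_image.1 hu
        have hadj : F.Adj y y' := (SimpleGraph.mem_neighborFinset _ _ _).1 hy'
        obtain ⟨j, hj1, hj2, hj3⟩ := hkey y' y hadj.symm
        obtain ⟨h1, h2, h3, h4⟩ := (hF y y').1 hadj
        obtain ⟨h5, h6⟩ := hCC y y' h1 h3 h4
        have hne1 : y.1 ≠ y'.1 := fun h => h1 (Subtype.ext h)
        refine mem_image.2 ⟨j, ?_, hj2⟩
        rw [mem_filter]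
        refine ⟨mem_univ _, ?_, ?_, ?_⟩
        · rw [hi2, hj2]
          exact (hcomp _ _).2 ⟨hne1, h2⟩
        · rw [hj2, hcomp]
          refine ⟨fun h => haY (σ i) (h ▸ y'.2), fun h => h5 ?_⟩
          exact ⟨h1, h2, ⟨a (σ i), haY _⟩, (xs _ _).2 ⟨i, hi1, hi2, hi3, rfl⟩, h⟩
        · rw [hi2, hcomp]
          refine ⟨fun h => haY (σ j) (h ▸ y.2), fun h => h6 ?_⟩
          exact ⟨h1.symm, fun h => h2 h.symm, ⟨a (σ j), haY _⟩,
            (xs _ _).2 ⟨j, hj1, hj2, hj3, rfl⟩, h⟩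
      calc F.degree y = (F.neighborFinset y).card := rfl
        _ = ((F.neighborFinset y).image Subtype.val).card :=
            (card_image_of_injective _ Subtype.val_injective).symm
        _ ≤ _ := card_le_card hsub
        _ ≤ _ := card_image_le
        _ ≤ K := (hσ i hi1).2.2
    · have : F.degree y = 0 := by
        rw [← SimpleGraph.card_neighborFinset_eq_degree, card_eq_zero,
          Finset.eq_empty_iff_forall_notMem]
        intro y' hy'
        exact hy (hkey y y' ((SimpleGraph.mem_neighborFinset _ _ _).1 hy'))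
      omega
  have h0 : ∀ y, ¬ F.Adj ⟨y0, hy0s⟩ y := by
    intro y hy
    obtain ⟨i, _, _, h⟩ := hkey _ _ hy
    exact h rfl
  have hcY : Fintype.card Y = Ys.card := Fintype.card_coe Ys
  have hcX : Fintype.card X + Ys.card = Fintype.card V := by
    have h1 := Fintype.card_congr e
    rw [Fintype.card_sum, hcY] at h1
    exact h1
  have hm' : 6000 * (K : ℝ) ^ 2 * Real.log (2 * Fintype.card Y) < m := by
    refine lt_of_le_of_lt ?_ hm
    have hY1 : 0 < Fintype.card Y := by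
      rw [hcY]
      exact card_pos.2 ⟨y0, hy0s⟩
    have hYV : Fintype.card Y ≤ Fintype.card V := by omega
    have h1 : (0 : ℝ) < 2 * Fintype.card Y := by
      have : (0 : ℝ) < Fintype.card Y := by exact_mod_cast hY1
      linarith
    have h2 : (2 : ℝ) * Fintype.card Y ≤ 2 * Fintype.card V := by
      have : (Fintype.card Y : ℝ) ≤ Fintype.card V := by exact_mod_cast hYV
      linarith
    exact mul_le_mul_of_nonneg_left (Real.log_le_log h1 h2) (by positivity)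
  obtain ⟨v, hv0, hv1, hv2, hv3⟩ := lemmaV F K m hK hdeg ⟨y0, hy0s⟩ h0 hm'
  have hdata : Data (G.comap e) x C v := by
    refine
      { inj := ?_, self := ?_, cov := ?_, asym := ?_, eq1 := ?_, lt1 := ?_, sah := ?_, zero := ?_ }
    · intro y y' z h h'
      obtain ⟨i, hi1, hi2, hi3, hi4⟩ := (xs _ _).1 h
      obtain ⟨j, hj1, hj2, hj3, hj4⟩ := (xs _ _).1 h'
      have : i = j := σ.injective (hM.ha (hi4.symm.trans hj4))
      apply Subtype.ext
      rw [← hi2, ← hj2, this]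
    · intro y z h
      obtain ⟨i, hi1, hi2, hi3, hi4⟩ := (xs _ _).1 h
      show G.Adj z.1 y.1
      have hn := (hσ i hi1).1
      rw [hcomp] at hn
      rw [hi4, ← hi2]
      by_contra hnG
      exact hn ⟨hM.hab _ _, hnG⟩
    · intro c l h
      obtain ⟨⟨h1, h2, z, h3, h4⟩, _⟩ := h
      exact ⟨h2, h1, z, h3, h4⟩
    · intro c l h h'
      obtain ⟨h1, h2⟩ := h
      obtain ⟨h3, h4⟩ := h'
      rcases h2 with h2 | h2
      · exact h2 h3
      · rcases h4 with h4 | h4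
        · exact h4 h1
        · exact lt_asymm h2 h4
    · intro y y' h1 h2 h3 h4
      exact hv1 y y' ((hF y y').2 ⟨h1, h2, h3, h4⟩)
    · intro y y' h1 h2
      refine hv2 y y' h1 fun h => ?_
      obtain ⟨_, h3, h4, h5⟩ := (hF y y').1 h
      rcases h2 with h2 | h2 | h2
      · exact h3 h2
      · exact h4 h2
      · exact h5 h2
    · intro Z hZ h1 h2
      refine hv3 Z hZ (fun y y' h => h1 y y' ?_) h2
      by_contra hn
      push Not at hn
      exact h ((hF y y').2 ⟨hn.1, hn.2.1, hn.2.2.1, hn.2.2.2⟩)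
    · refine ⟨⟨y0, hy0s⟩, ?_, ?_⟩
      · cases hx : x ⟨y0, hy0s⟩ with
        | none => rfl
        | some z =>
          obtain ⟨i, _, _, h, _⟩ := (xs _ _).1 hx
          exact absurd rfl h
      · rw [hv0]
        simp
  obtain ⟨u, hu⟩ := rep_of_data (G.comap e) x C v hdata
  have h1 := muGE_of_rep G _ (rep_transport e G u hu)
  refine h1.anti ?_
  rw [Fintype.card_sum, Fintype.card_fin]
  omega

end Pool.Agent.H163R2.CdV
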