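import Pool.Agent.H163R2.CdV.T1
import Pool.Agent.H163R2.CdV.C2

set_option autoImplicit false

/-! TASK CL of project CdV (helper163): table h163_tasks, statement must not change. -/

namespace Pool.Agent.H163R2.CdV

open Finset Matrix Topology

/-- TASK CL (cliques; from C2 and T1 with `m = 0`). -/
theorem muGE_of_clique {V : Type} [Fintype V] [DecidableEq V] (G : SimpleGraph V) (U : Finset V)
    (hU : ∀ u ∈ U, ∀ u' ∈ U, u ≠ u' → G.Adj u u') (hne : U.Nonempty) :
    MuGE G (U.card - 1) := by
  classical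
  obtain ⟨e, he⟩ : ∃ e : {v : V // v ∉ U} ⊕ {v : V // v ∈ U} ≃ V,
      ∀ y, e (Sum.inr y) = y.1 :=
    ⟨(Equiv.sumComm _ _).trans (Equiv.sumCompl (fun v => v ∈ U)), fun y => rfl⟩
  have hadj : ∀ y y' : {v : V // v ∈ U}, y ≠ y' →
      (G.comap e).Adj (Sum.inr y) (Sum.inr y') := by
    intro y y' hyy
    rw [SimpleGraph.comap_adj, he, he]
    exact hU _ y.2 _ y'.2 fun h => hyy (Subtype.ext h)
  obtain ⟨u0, hu0⟩ := hne
  have hdata : Data (G.comap e) (fun _ : {v : V // v ∈ U} => none) (fun _ _ => False)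
      (fun (_ : {v : V // v ∈ U}) (_ : Fin 0) => (0 : ℝ)) := by
    refine ⟨?_, ?_, ?_, ?_, ?_, ?_, ?_, ?_⟩
    · intro y y' z h
      exact absurd h (by simp)
    · intro y z h
      exact absurd h (by simp)
    · intro c l h
      exact h.elim
    · intro c l h
      exact h.elim
    · intro y y' hyy hn
      exact absurd (hadj y y' hyy) hn
    · intro y y' _ _
      simp
    · intro Z _ hZ _
      ext y y'
      by_cases hyy : y = y'
      · exact hZ y y' (Or.inl hyy)
      · exact hZ y y' (Or.inr (Or.inl (hadj y y' hyy)))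
    · exact ⟨⟨u0, hu0⟩, rfl, by simp⟩
  obtain ⟨u, hu⟩ := rep_of_data (G.comap e) _ _ _ hdata
  have h1 := muGE_of_rep G _ (rep_transport e G u hu)
  have h2 : Fintype.card V - Fintype.card ({v : V // v ∉ U} ⊕ Fin 0) - 1 = U.card - 1 := by
    have h3 : Fintype.card V = Fintype.card {v : V // v ∉ U} + U.card := by
      rw [← Fintype.card_congr e, Fintype.card_sum]
      congr 1
      exact Fintype.card_coe U
    rw [Fintype.card_sum, Fintype.card_fin]
    omega
  rw [h2] at h1
  exact h1

end Pool.Agent.H163R2.CdV
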