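import Pool.Agent.H163R2.CdV.Defs

set_option autoImplicit false

/-! TASK N of project CdV (helper163): table h163_tasks, statement must not change. -/

namespace Pool.Agent.H163R2.CdV

open Finset Matrix Topology

/-- TASK N (real analysis). -/
theorem numeric (ε η : ℝ) (hε : 0 < ε) (hε' : ε ≤ 1 / 4) (hη : 0 < η) :
    ∃ n0 : ℕ, ∀ n : ℕ, n0 ≤ n → ∃ D K m : ℕ, 1 ≤ D ∧ 1 ≤ K ∧
      2 * (n : ℝ) ^ (11 / 6 - ε) ≤ η * n * D ∧ (3 * D : ℝ) ≤ η * n ∧
      (m : ℝ) + 1 ≤ η * n ∧ 6000 * (K : ℝ) ^ 2 * Real.log (2 * n) < m ∧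
      ∀ k : ℕ, η * n ≤ k → 2 ≤ k ∧ (D : ℝ) ^ 3 / (((k : ℝ) - 1) * K) ≤ η * n := by
  obtain ⟨R, hR⟩ : ∃ R, R = 1 + 2 / η + 16 / η ^ 2 + 6 / η + 96000 / (ε * η) := ⟨_, rfl⟩
  have hlim : Filter.Tendsto (fun n : ℕ => (n : ℝ) ^ (ε / 2)) Filter.atTop Filter.atTop :=
    (tendsto_rpow_atTop (by positivity)).comp tendsto_natCast_atTop_atTop
  obtain ⟨n0, hn0⟩ := Filter.eventually_atTop.1 (hlim.eventually_ge_atTop R)
  refine ⟨max (max 1 ⌈4 / η⌉₊) n0, fun n hn => ?_⟩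
  have hn1 : (1 : ℝ) ≤ n := by
    have : 1 ≤ n := le_trans (le_trans (le_max_left _ _) (le_max_left _ _)) hn
    exact_mod_cast this
  have hn4 : 4 / η ≤ n := by
    have : ⌈4 / η⌉₊ ≤ n := le_trans (le_trans (le_max_right _ _) (le_max_left _ _)) hn
    exact le_trans (Nat.le_ceil _) (by exact_mod_cast this)
  have ht := hn0 n (le_trans (le_max_right _ _) hn)
  have hnpos : (0 : ℝ) < n := by linarith
  have hηn : 4 ≤ η * n := by
    rw [div_le_iff₀ hη] at hn4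
    linarith
  -- abbreviations
  obtain ⟨t, hteq⟩ : ∃ t, t = (n : ℝ) ^ (ε / 2) := ⟨_, rfl⟩
  obtain ⟨A, hA⟩ : ∃ A, A = (n : ℝ) ^ (11 / 6 - ε) := ⟨_, rfl⟩
  obtain ⟨P, hP⟩ : ∃ P, P = (n : ℝ) ^ (5 / 6 - ε / 2) := ⟨_, rfl⟩
  obtain ⟨Q, hQ⟩ : ∃ Q, Q = (n : ℝ) ^ (1 / 2 - ε) := ⟨_, rfl⟩
  obtain ⟨w, hw⟩ : ∃ w, w = (n : ℝ) ^ ((1 : ℝ) / 6) := ⟨_, rfl⟩
  rw [← hteq] at ht
  have c1 : 2 / η ≤ t := by
    have : 0 < 16 / η ^ 2 := by positivity
    have : 0 < 6 / η := by positivity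
    have : 0 < 96000 / (ε * η) := by positivity
    linarith
  have c2 : 16 / η ^ 2 ≤ t := by
    have : 0 < 2 / η := by positivity
    have : 0 < 6 / η := by positivity
    have : 0 < 96000 / (ε * η) := by positivity
    linarith
  have c3 : 6 / η ≤ t := by
    have : 0 < 2 / η := by positivity
    have : 0 < 16 / η ^ 2 := by positivity
    have : 0 < 96000 / (ε * η) := by positivity
    linarith
  have c4 : 96000 / (ε * η) ≤ t := by
    have : 0 < 2 / η := by positivity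
    have : 0 < 16 / η ^ 2 := by positivity
    have : 0 < 6 / η := by positivity
    linarith
  have c5 : 1 ≤ t := by
    have : 0 < 2 / η := by positivity
    have : 0 < 16 / η ^ 2 := by positivity
    have : 0 < 6 / η := by positivity
    have : 0 < 96000 / (ε * η) := by positivity
    linarith
  have hA0 : 0 < A := by rw [hA]; positivity
  have hP1 : 1 ≤ P := by
    rw [hP]
    exact Real.one_le_rpow hn1 (by linarith)
  have hQ1 : 1 ≤ Q := by
    rw [hQ]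
    exact Real.one_le_rpow hn1 (by linarith)
  have hw1 : 1 ≤ w := by
    rw [hw]
    exact Real.one_le_rpow hn1 (by norm_num)
  have e1 : n * P = A * t := by
    rw [hP, hA, hteq, ← Real.rpow_add hnpos]
    nth_rw 1 [← Real.rpow_one (n : ℝ)]
    rw [← Real.rpow_add hnpos]
    congr 1
    ring
  have e2 : P * (w * t) = n := by
    rw [hP, hw, hteq, ← Real.rpow_add hnpos, ← Real.rpow_add hnpos]
    nth_rw 2 [← Real.rpow_one (n : ℝ)]
    congr 1
    ring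
  have e3 : Q * (n : ℝ) ^ 2 = P ^ 3 * t := by
    rw [hP, hQ, hteq, ← Real.rpow_natCast, ← Real.rpow_natCast, ← Real.rpow_mul hnpos.le,
      ← Real.rpow_add hnpos, ← Real.rpow_add hnpos]
    congr 1
    push_cast
    ring
  have e4 : Q ^ 2 * t ^ 4 = n := by
    rw [hQ, hteq, ← Real.rpow_natCast, ← Real.rpow_natCast, ← Real.rpow_mul hnpos.le,
      ← Real.rpow_mul hnpos.le, ← Real.rpow_add hnpos]
    nth_rw 2 [← Real.rpow_one (n : ℝ)]
    congr 1
    push_cast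
    ring
  have e5 : Real.log (2 * n) ≤ 2 * t ^ 2 / ε := by
    have h1 := Real.log_le_rpow_div (x := 2 * (n : ℝ)) (by positivity) hε
    refine h1.trans (div_le_div_of_nonneg_right ?_ hε.le)
    rw [Real.mul_rpow (by norm_num) hnpos.le]
    have h2 : (2 : ℝ) ^ ε ≤ 2 := by
      calc (2 : ℝ) ^ ε ≤ 2 ^ (1 : ℝ) := Real.rpow_le_rpow_of_exponent_le (by norm_num) (by linarith)
        _ = 2 := Real.rpow_one 2
    have h3 : (n : ℝ) ^ ε = t ^ 2 := by
      rw [hteq, ← Real.rpow_natCast, ← Real.rpow_mul hnpos.le]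
      congr 1
      push_cast
      ring
    rw [h3]
    exact mul_le_mul_of_nonneg_right h2 (by positivity)
  have hlog0 : 0 ≤ Real.log (2 * n) := Real.log_nonneg (by linarith)
  -- the numbers
  have hD1 : P ≤ (⌈P⌉₊ : ℝ) := Nat.le_ceil _
  have hD2 : (⌈P⌉₊ : ℝ) ≤ 2 * P := by
    have := Nat.ceil_lt_add_one (by linarith : 0 ≤ P)
    linarith
  have hK1 : Q ≤ (⌈Q⌉₊ : ℝ) := Nat.le_ceil _
  have hK2 : (⌈Q⌉₊ : ℝ) ≤ 2 * Q := by
    have := Nat.ceil_lt_add_one (by linarith : 0 ≤ Q)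
    linarith
  refine ⟨⌈P⌉₊, ⌈Q⌉₊, ⌊6000 * (⌈Q⌉₊ : ℝ) ^ 2 * Real.log (2 * n)⌋₊ + 1, ?_, ?_, ?_, ?_, ?_, ?_, ?_⟩
  · exact Nat.ceil_pos.2 (by linarith)
  · exact Nat.ceil_pos.2 (by linarith)
  · rw [← hA]
    have h1 : 2 ≤ η * t := by
      rw [div_le_iff₀ hη] at c1
      linarith
    calc 2 * A ≤ (η * t) * A := mul_le_mul_of_nonneg_right h1 hA0.le
      _ = η * (n * P) := by rw [e1]; ring
      _ = η * n * P := by ring
      _ ≤ η * n * (⌈P⌉₊ : ℝ) := mul_le_mul_of_nonneg_left hD1 (by positivity)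
  · have h1 : 6 ≤ η * t := by
      rw [div_le_iff₀ hη] at c3
      linarith
    calc (3 * (⌈P⌉₊ : ℝ)) ≤ 6 * P := by linarith
      _ ≤ (η * t) * P := mul_le_mul_of_nonneg_right h1 (by linarith)
      _ ≤ (η * t) * P * w := le_mul_of_one_le_right (by positivity) hw1
      _ = η * (P * (w * t)) := by ring
      _ = η * n := by rw [e2]
  · have h0 : 0 ≤ 6000 * (⌈Q⌉₊ : ℝ) ^ 2 * Real.log (2 * n) := by positivity
    have h1 := Nat.floor_le h0
    push_cast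
    have h2 : 6000 * (⌈Q⌉₊ : ℝ) ^ 2 * Real.log (2 * n) ≤ 6000 * (2 * Q) ^ 2 * (2 * t ^ 2 / ε) := by
      have h3 : (⌈Q⌉₊ : ℝ) ^ 2 ≤ (2 * Q) ^ 2 := pow_le_pow_left₀ (by positivity) hK2 2
      exact mul_le_mul (by linarith) e5 hlog0 (by positivity)
    have h4 : 6000 * (2 * Q) ^ 2 * (2 * t ^ 2 / ε) ≤ η * n / 2 := by
      have h5 : 96000 ≤ t * (ε * η) := by
        rwa [div_le_iff₀ (by positivity)] at c4
      have h6 : 96000 ≤ t ^ 2 * (ε * η) := by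
        calc (96000 : ℝ) ≤ t * (ε * η) := h5
          _ ≤ t ^ 2 * (ε * η) := mul_le_mul_of_nonneg_right (by nlinarith) (by positivity)
      have h7 : 6000 * (2 * Q) ^ 2 * (2 * t ^ 2 / ε) = Q ^ 2 * t ^ 2 * 96000 / (2 * ε) := by
        field_simp
        ring
      rw [h7, div_le_iff₀ (by positivity)]
      calc Q ^ 2 * t ^ 2 * 96000 ≤ Q ^ 2 * t ^ 2 * (t ^ 2 * (ε * η)) :=
            mul_le_mul_of_nonneg_left h6 (by positivity)
        _ = (Q ^ 2 * t ^ 4) * (ε * η) := by ring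
        _ = η * n / 2 * (2 * ε) := by rw [e4]; ring
    linarith
  · push_cast
    exact Nat.lt_floor_add_one _
  · intro k hk
    have hk4 : (4 : ℝ) ≤ k := hηn.trans hk
    refine ⟨?_, ?_⟩
    · have : 4 ≤ k := by exact_mod_cast hk4
      omega
    · have h1 : η * n / 2 ≤ (k : ℝ) - 1 := by linarith
      have h2 : 0 < ((k : ℝ) - 1) * (⌈Q⌉₊ : ℝ) := by
        apply mul_pos <;> linarith
      rw [div_le_iff₀ h2]
      have h3 : (⌈P⌉₊ : ℝ) ^ 3 ≤ (2 * P) ^ 3 := pow_le_pow_left₀ (by positivity) hD2 3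
      have h4 : 16 ≤ t * η ^ 2 := by
        rwa [div_le_iff₀ (by positivity)] at c2
      calc (⌈P⌉₊ : ℝ) ^ 3 ≤ (2 * P) ^ 3 := h3
        _ = P ^ 3 * 16 / 2 := by ring
        _ ≤ P ^ 3 * (t * η ^ 2) / 2 := by
            have : P ^ 3 * 16 ≤ P ^ 3 * (t * η ^ 2) := mul_le_mul_of_nonneg_left h4 (by positivity)
            linarith
        _ = η ^ 2 * (Q * (n : ℝ) ^ 2) / 2 := by rw [e3]; ring
        _ = η * n * ((η * n / 2) * Q) := by ring
        _ ≤ η * n * (((k : ℝ) - 1) * (⌈Q⌉₊ : ℝ)) := by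
            refine mul_le_mul_of_nonneg_left ?_ (by positivity)
            exact mul_le_mul h1 hK1 (by linarith) (by linarith)

end Pool.Agent.H163R2.CdV
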