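import Pool.Agent.H163R2.CdV.Defs

set_option autoImplicit false

/-! TASK P of project CdV (helper163): table h163_tasks, statement must not change.
(proof: helper790) -/

namespace Pool.Agent.H163R2.CdV

open Finset Matrix Topology


private theorem p_avg1 {k : ℕ} (f : Fin k → ℝ) (i : Fin k) :
    (k : ℝ) * ∑ σ : Equiv.Perm (Fin k), f (σ i) = (k.factorial : ℝ) * ∑ p, f p := by
  have h1 : ∀ i' : Fin k, ∑ σ : Equiv.Perm (Fin k), f (σ i') = ∑ σ : Equiv.Perm (Fin k), f (σ i) := by
    intro i'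
    refine Fintype.sum_equiv (Equiv.mulRight (Equiv.swap i i')) _ _ (fun σ => ?_)
    simp
  have h2 : ∑ i' : Fin k, ∑ σ : Equiv.Perm (Fin k), f (σ i') =
      (k : ℝ) * ∑ σ : Equiv.Perm (Fin k), f (σ i) := by
    rw [Finset.sum_congr rfl (fun i' _ => h1 i')]
    simp
  rw [← h2, Finset.sum_comm]
  have h3 : ∀ σ : Equiv.Perm (Fin k), ∑ i' : Fin k, f (σ i') = ∑ p, f p := fun σ =>
    Equiv.sum_comp σ f
  rw [Finset.sum_congr rfl (fun σ _ => h3 σ)]
  simp [Fintype.card_perm]

private theorem p_avg2 {k : ℕ} (g : Fin k → Fin k → ℝ) (i j : Fin k) (hij : i ≠ j) :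
    ((k : ℝ) * (k - 1)) * ∑ σ : Equiv.Perm (Fin k), g (σ i) (σ j) =
      (k.factorial : ℝ) * ∑ p, ∑ q, if p ≠ q then g p q else 0 := by
  have h1 : ∀ i' j' : Fin k, i' ≠ j' → ∑ σ : Equiv.Perm (Fin k), g (σ i') (σ j') =
      ∑ σ : Equiv.Perm (Fin k), g (σ i) (σ j) := by
    intro i' j' hij'
    -- a permutation with `i ↦ i'`, `j ↦ j'`
    obtain ⟨τ, h1, h2⟩ : ∃ τ : Equiv.Perm (Fin k), τ i = i' ∧ τ j = j' := by
      refine ⟨Equiv.swap (Equiv.swap i i' j) j' * Equiv.swap i i', ?_, ?_⟩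
      · rw [Equiv.Perm.mul_apply, Equiv.swap_apply_left]
        refine Equiv.swap_apply_of_ne_of_ne ?_ hij'
        intro h
        have : Equiv.swap i i' i = Equiv.swap i i' j := by rw [Equiv.swap_apply_left]; exact h
        exact hij ((Equiv.swap i i').injective this)
      · rw [Equiv.Perm.mul_apply, Equiv.swap_apply_left]
    refine Fintype.sum_equiv (Equiv.mulRight τ) _ _ (fun σ => ?_)
    simp [h1, h2]
  have h2 : ∑ i' : Fin k, ∑ j' : Fin k, (if i' ≠ j' then
      ∑ σ : Equiv.Perm (Fin k), g (σ i') (σ j') else 0) =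
      ((k : ℝ) * (k - 1)) * ∑ σ : Equiv.Perm (Fin k), g (σ i) (σ j) := by
    have h3 : ∀ i' : Fin k, ∑ j' : Fin k, (if i' ≠ j' then
        ∑ σ : Equiv.Perm (Fin k), g (σ i') (σ j') else 0) =
        ((k : ℝ) - 1) * ∑ σ : Equiv.Perm (Fin k), g (σ i) (σ j) := by
      intro i'
      have h4 : ∀ j' : Fin k, (if i' ≠ j' then
        ∑ σ : Equiv.Perm (Fin k), g (σ i') (σ j') else 0) =
        (∑ σ : Equiv.Perm (Fin k), g (σ i) (σ j)) -
          (if i' = j' then ∑ σ : Equiv.Perm (Fin k), g (σ i) (σ j) else 0) := by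
        intro j'
        by_cases h : i' = j'
        · simp [h]
        · rw [if_pos h, if_neg h, h1 i' j' h, sub_zero]
      rw [Finset.sum_congr rfl (fun j' _ => h4 j'), Finset.sum_sub_distrib]
      simp
      ring
    rw [Finset.sum_congr rfl (fun i' _ => h3 i')]
    simp
    ring
  rw [← h2]
  have h5 : ∀ i' j' : Fin k, (if i' ≠ j' then
      ∑ σ : Equiv.Perm (Fin k), g (σ i') (σ j') else 0) =
      ∑ σ : Equiv.Perm (Fin k), (if σ i' ≠ σ j' then g (σ i') (σ j') else 0) := by
    intro i' j'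
    by_cases h : i' = j'
    · simp [h]
    · rw [if_pos h]
      refine Finset.sum_congr rfl (fun σ _ => ?_)
      rw [if_pos (fun h' => h (σ.injective h'))]
  simp_rw [h5]
  have h6 : ∀ i' : Fin k, ∑ j' : Fin k, ∑ σ : Equiv.Perm (Fin k),
      (if σ i' ≠ σ j' then g (σ i') (σ j') else 0) =
      ∑ σ : Equiv.Perm (Fin k), ∑ q, (if σ i' ≠ q then g (σ i') q else 0) := by
    intro i'
    rw [Finset.sum_comm]
    refine Finset.sum_congr rfl (fun σ _ => ?_)
    exact Equiv.sum_comp σ (fun q => if σ i' ≠ q then g (σ i') q else 0)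
  rw [Finset.sum_congr rfl (fun i' _ => h6 i'), Finset.sum_comm]
  have h7 : ∀ σ : Equiv.Perm (Fin k), ∑ i' : Fin k, ∑ q, (if σ i' ≠ q then g (σ i') q else 0) =
      ∑ p, ∑ q, (if p ≠ q then g p q else 0) := fun σ =>
    Equiv.sum_comp σ (fun p => ∑ q, (if p ≠ q then g p q else 0))
  rw [Finset.sum_congr rfl (fun σ _ => h7 σ)]
  simp [Fintype.card_perm]

private theorem p_count {V : Type} [Fintype V] [DecidableEq V] (H : SimpleGraph V)
    [DecidableRel H.Adj] (D k : ℕ) (a : Fin k → V) (ha : Function.Injective a) (v : V)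
    (hv : H.degree v ≤ D) : ∑ p : Fin k, (if H.Adj (a p) v then (1 : ℝ) else 0) ≤ D := by
  rw [← Finset.sum_filter, Finset.sum_const, nsmul_eq_mul, mul_one]
  have h1 : (Finset.univ.filter (fun p => H.Adj (a p) v)).card ≤ H.degree v := by
    rw [← SimpleGraph.card_neighborFinset_eq_degree]
    refine Finset.card_le_card_of_injOn a (fun p hp => ?_) (ha.injOn)
    have hp' := (Finset.mem_filter.1 hp).2
    have : a p ∈ H.neighborFinset v := by
      rw [SimpleGraph.mem_neighborFinset]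
      exact hp'.symm
    exact this
  exact_mod_cast h1.trans hv

/-- TASK P (first moment over a random permutation). -/
theorem pairing {V : Type} [Fintype V] [DecidableEq V] (H : SimpleGraph V) [DecidableRel H.Adj]
    (D k K : ℕ) (hk : 2 ≤ k) (hK : 1 ≤ K) (a b t : Fin k → V)
    (ha : Function.Injective a) (hb : Function.Injective b)
    (hDb : ∀ i, H.degree (b i) ≤ D) (hDt : ∀ i, H.degree (t i) ≤ D) :
    ∃ (σ : Equiv.Perm (Fin k)) (bad : Finset (Fin k)),
      (bad.card : ℝ) ≤ 2 * D + (D : ℝ) ^ 3 / (((k : ℝ) - 1) * K) ∧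
      ∀ i, i ∉ bad → ¬ H.Adj (a (σ i)) (b i) ∧ ¬ H.Adj (a (σ i)) (t i) ∧
        (Finset.univ.filter (fun j => H.Adj (b i) (b j) ∧ H.Adj (a (σ i)) (b j) ∧
          H.Adj (a (σ j)) (b i))).card ≤ K := by
  classical
  have hk0 : (0 : ℝ) < k := by
    have : 0 < k := by omega
    exact_mod_cast this
  have hk1 : (0 : ℝ) < (k : ℝ) - 1 := by
    have : (2 : ℝ) ≤ k := by exact_mod_cast hk
    linarith
  have hK0 : (0 : ℝ) < K := by exact_mod_cast hK
  have hD0 : (0 : ℝ) ≤ D := Nat.cast_nonneg D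
  -- the three counts
  set c1 : Equiv.Perm (Fin k) → ℝ := fun σ => ∑ i, (if H.Adj (a (σ i)) (b i) then (1 : ℝ) else 0)
    with hc1
  set c2 : Equiv.Perm (Fin k) → ℝ := fun σ => ∑ i, (if H.Adj (a (σ i)) (t i) then (1 : ℝ) else 0)
    with hc2
  set dg : Equiv.Perm (Fin k) → Fin k → ℕ := fun σ i =>
    (Finset.univ.filter (fun j => H.Adj (b i) (b j) ∧ H.Adj (a (σ i)) (b j) ∧
          H.Adj (a (σ j)) (b i))).card with hdg
  set c3 : Equiv.Perm (Fin k) → ℝ := fun σ => ∑ i, (dg σ i : ℝ) with hc3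
  have hF : (0 : ℝ) < (k.factorial : ℝ) := by exact_mod_cast k.factorial_pos
  -- first two averages
  have hs : ∀ u : Fin k → V, (∀ i, H.degree (u i) ≤ D) →
      ∑ σ : Equiv.Perm (Fin k), ∑ i, (if H.Adj (a (σ i)) (u i) then (1 : ℝ) else 0) ≤
        k.factorial * D := by
    intro u hu
    rw [Finset.sum_comm]
    have h1 : ∀ i : Fin k, ∑ σ : Equiv.Perm (Fin k), (if H.Adj (a (σ i)) (u i) then (1 : ℝ) else 0)
        ≤ (k.factorial : ℝ) * D / k := by
      intro i
      have h2 := p_avg1 (fun p => if H.Adj (a p) (u i) then (1 : ℝ) else 0) i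
      have h3 := p_count H D k a ha (u i) (hu i)
      rw [le_div_iff₀ hk0, mul_comm, h2]
      exact mul_le_mul_of_nonneg_left h3 hF.le
    refine (Finset.sum_le_sum (fun i _ => h1 i)).trans ?_
    rw [Finset.sum_const, nsmul_eq_mul, Finset.card_univ, Fintype.card_fin]
    apply le_of_eq
    field_simp
  have e1 : ∑ σ, c1 σ ≤ k.factorial * D := hs b hDb
  have e2 : ∑ σ, c2 σ ≤ k.factorial * D := hs t hDt
  -- third average
  have e3 : ∑ σ, c3 σ ≤ k.factorial * ((D : ℝ) ^ 3 / ((k : ℝ) - 1)) := by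
    have h0 : ∀ σ : Equiv.Perm (Fin k), c3 σ = ∑ i, ∑ j, (if H.Adj (b i) (b j) then
        ((if H.Adj (a (σ i)) (b j) then (1 : ℝ) else 0) *
          (if H.Adj (a (σ j)) (b i) then (1 : ℝ) else 0)) else 0) := by
      intro σ
      rw [hc3]
      refine Finset.sum_congr rfl (fun i _ => ?_)
      rw [hdg]
      simp only
      rw [Finset.card_filter]
      push_cast
      refine Finset.sum_congr rfl (fun j _ => ?_)
      by_cases q1 : H.Adj (b i) (b j) <;> by_cases q2 : H.Adj (a (σ i)) (b j) <;>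
        by_cases q3 : H.Adj (a (σ j)) (b i) <;> simp [q1, q2, q3]
    simp_rw [h0]
    rw [Finset.sum_comm]
    have h1 : ∀ i : Fin k, ∑ σ : Equiv.Perm (Fin k), ∑ j, (if H.Adj (b i) (b j) then
        ((if H.Adj (a (σ i)) (b j) then (1 : ℝ) else 0) *
          (if H.Adj (a (σ j)) (b i) then (1 : ℝ) else 0)) else 0) ≤
        ∑ j, (if H.Adj (b i) (b j) then (k.factorial : ℝ) * ((D : ℝ) * D) /
          ((k : ℝ) * ((k : ℝ) - 1)) else 0) := by
      intro i
      rw [Finset.sum_comm]
      refine Finset.sum_le_sum (fun j _ => ?_)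
      by_cases hij : H.Adj (b i) (b j)
      · simp only [if_pos hij]
        have hne : i ≠ j := by
          rintro rfl
          exact H.irrefl hij
        have h2 := p_avg2 (fun p q => (if H.Adj (a p) (b j) then (1 : ℝ) else 0) *
          (if H.Adj (a q) (b i) then (1 : ℝ) else 0)) i j hne
        have h3 := p_count H D k a ha (b j) (hDb j)
        have h4 := p_count H D k a ha (b i) (hDb i)
        have h5 : ∑ p, ∑ q, (if p ≠ q then (if H.Adj (a p) (b j) then (1 : ℝ) else 0) *
          (if H.Adj (a q) (b i) then (1 : ℝ) else 0) else 0) ≤ (D : ℝ) * D := by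
          have h6 : ∑ p, ∑ q, (if p ≠ q then (if H.Adj (a p) (b j) then (1 : ℝ) else 0) *
            (if H.Adj (a q) (b i) then (1 : ℝ) else 0) else 0) ≤
            ∑ p, ∑ q, (if H.Adj (a p) (b j) then (1 : ℝ) else 0) *
            (if H.Adj (a q) (b i) then (1 : ℝ) else 0) := by
            refine Finset.sum_le_sum (fun p _ => Finset.sum_le_sum (fun q _ => ?_))
            by_cases hpq : p ≠ q
            · rw [if_pos hpq]
            · rw [if_neg hpq]
              positivity
          refine h6.trans ?_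
          rw [← Finset.sum_mul_sum]
          refine mul_le_mul h3 h4 ?_ hD0
          exact Finset.sum_nonneg (fun q _ => by positivity)
        rw [le_div_iff₀ (by positivity), mul_comm, h2]
        exact mul_le_mul_of_nonneg_left h5 hF.le
      · simp only [if_neg hij, Finset.sum_const_zero]
        exact le_refl _
    refine (Finset.sum_le_sum (fun i _ => h1 i)).trans ?_
    have h7 : ∀ i : Fin k, ∑ j, (if H.Adj (b i) (b j) then (k.factorial : ℝ) * ((D : ℝ) * D) /
          ((k : ℝ) * ((k : ℝ) - 1)) else 0) ≤ (k.factorial : ℝ) * ((D : ℝ) * D) /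
          ((k : ℝ) * ((k : ℝ) - 1)) * D := by
      intro i
      have h8 := p_count H D k b hb (b i) (hDb i)
      have h9 : ∑ j, (if H.Adj (b i) (b j) then (k.factorial : ℝ) * ((D : ℝ) * D) /
          ((k : ℝ) * ((k : ℝ) - 1)) else 0) = (k.factorial : ℝ) * ((D : ℝ) * D) /
          ((k : ℝ) * ((k : ℝ) - 1)) * ∑ j, (if H.Adj (b j) (b i) then (1 : ℝ) else 0) := by
        rw [Finset.mul_sum]
        refine Finset.sum_congr rfl (fun j _ => ?_)
        simp only [H.adj_comm (b j) (b i)]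
        split_ifs <;> simp
      rw [h9]
      exact mul_le_mul_of_nonneg_left h8 (by positivity)
    refine (Finset.sum_le_sum (fun i _ => h7 i)).trans ?_
    rw [Finset.sum_const, nsmul_eq_mul, Finset.card_univ, Fintype.card_fin]
    apply le_of_eq
    field_simp
  -- choice of the permutation
  obtain ⟨σ, hσ⟩ : ∃ σ : Equiv.Perm (Fin k), c1 σ + c2 σ + c3 σ / K ≤
      2 * D + (D : ℝ) ^ 3 / (((k : ℝ) - 1) * K) := by
    by_contra hcon
    push Not at hcon
    have h1 : ∑ σ : Equiv.Perm (Fin k), (2 * (D : ℝ) + (D : ℝ) ^ 3 / (((k : ℝ) - 1) * K)) <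
        ∑ σ : Equiv.Perm (Fin k), (c1 σ + c2 σ + c3 σ / K) :=
      Finset.sum_lt_sum_of_nonempty Finset.univ_nonempty (fun σ _ => hcon σ)
    have h0 : ∑ σ : Equiv.Perm (Fin k), (c1 σ + c2 σ + c3 σ / K) =
        ∑ σ, c1 σ + ∑ σ, c2 σ + (∑ σ, c3 σ) / K := by
      rw [Finset.sum_add_distrib, Finset.sum_add_distrib, Finset.sum_div]
    rw [h0, Finset.sum_const, nsmul_eq_mul, Finset.card_univ, Fintype.card_perm,
      Fintype.card_fin] at h1
    have h2 : (∑ σ, c3 σ) / K ≤ k.factorial * ((D : ℝ) ^ 3 / ((k : ℝ) - 1)) / K :=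
      div_le_div_of_nonneg_right e3 hK0.le
    have h3 : (k.factorial : ℝ) * (2 * D + (D : ℝ) ^ 3 / (((k : ℝ) - 1) * K)) =
        k.factorial * D + k.factorial * D + k.factorial * ((D : ℝ) ^ 3 / ((k : ℝ) - 1)) / K := by
      field_simp
      ring
    rw [h3] at h1
    linarith
  refine ⟨σ, Finset.univ.filter (fun i => H.Adj (a (σ i)) (b i)) ∪
    Finset.univ.filter (fun i => H.Adj (a (σ i)) (t i)) ∪
    Finset.univ.filter (fun i => K < dg σ i), ?_, ?_⟩
  · refine le_trans ?_ hσ
    have h1 : ((Finset.univ.filter (fun i => H.Adj (a (σ i)) (b i))).card : ℝ) = c1 σ := by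
      rw [hc1]; simp only [Finset.card_filter]; push_cast; rfl
    have h2 : ((Finset.univ.filter (fun i => H.Adj (a (σ i)) (t i))).card : ℝ) = c2 σ := by
      rw [hc2]; simp only [Finset.card_filter]; push_cast; rfl
    have h3 : ((Finset.univ.filter (fun i => K < dg σ i)).card : ℝ) ≤ c3 σ / K := by
      rw [le_div_iff₀ hK0]
      have h4 : (Finset.univ.filter (fun i => K < dg σ i)).card • (K : ℝ) ≤
          ∑ i ∈ Finset.univ.filter (fun i => K < dg σ i), (dg σ i : ℝ) := by
        refine Finset.card_nsmul_le_sum _ _ _ (fun i hi => ?_)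
        have := (Finset.mem_filter.1 hi).2
        exact_mod_cast this.le
      rw [nsmul_eq_mul] at h4
      refine h4.trans ?_
      rw [hc3]
      exact Finset.sum_le_sum_of_subset_of_nonneg (Finset.subset_univ _)
        (fun i _ _ => Nat.cast_nonneg _)
    have h5 : (Finset.univ.filter (fun i => H.Adj (a (σ i)) (b i)) ∪
      Finset.univ.filter (fun i => H.Adj (a (σ i)) (t i)) ∪
      Finset.univ.filter (fun i => K < dg σ i)).card ≤
      (Finset.univ.filter (fun i => H.Adj (a (σ i)) (b i))).card +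
      (Finset.univ.filter (fun i => H.Adj (a (σ i)) (t i))).card +
      (Finset.univ.filter (fun i => K < dg σ i)).card :=
      (Finset.card_union_le _ _).trans (Nat.add_le_add_right (Finset.card_union_le _ _) _)
    have h6 : (((Finset.univ.filter (fun i => H.Adj (a (σ i)) (b i)) ∪
      Finset.univ.filter (fun i => H.Adj (a (σ i)) (t i)) ∪
      Finset.univ.filter (fun i => K < dg σ i)).card : ℕ) : ℝ) ≤
      (Finset.univ.filter (fun i => H.Adj (a (σ i)) (b i))).card +
      (Finset.univ.filter (fun i => H.Adj (a (σ i)) (t i))).card +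
      (Finset.univ.filter (fun i => K < dg σ i)).card := by exact_mod_cast h5
    linarith
  · intro i hi
    simp only [Finset.mem_union, Finset.mem_filter, Finset.mem_univ, true_and, not_or,
      not_lt] at hi
    exact ⟨hi.1.1, hi.1.2, hi.2⟩

end Pool.Agent.H163R2.CdV
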