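import Pool.Agent.H163R2.CdV.BD
import Pool.Agent.H163R2.CdV.CL
import Pool.Agent.H163R2.CdV.P
import Pool.Agent.H163R2.CdV.M
import Pool.Agent.H163R2.CdV.X
import Pool.Agent.H163R2.CdV.HD
import Pool.Agent.H163R2.CdV.N

set_option autoImplicit false

/-! TASK FIN of project CdV (helper163): the final theorem. -/

namespace Pool.Agent.H163R2.CdV

open Finset Matrix Topology

/-- the two images of the matched pairs take up `2 k` elements of `W` -/
theorem two_mul_le_card {V : Type} [DecidableEq V] {H : SimpleGraph V} {W : Finset V} {k : ℕ}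
    {a b t : Fin k → V} (hM : Mat H W a b t) : 2 * k ≤ W.card := by
  have hdisj : Disjoint (Finset.univ.image a) (Finset.univ.image b) := by
    rw [Finset.disjoint_left]
    intro x hx hx'
    rw [Finset.mem_image] at hx hx'
    obtain ⟨i, _, rfl⟩ := hx
    obtain ⟨j, _, hj⟩ := hx'
    exact hM.hab i j hj.symm
  have hsub : Finset.univ.image a ∪ Finset.univ.image b ⊆ W := by
    intro x hx
    rw [Finset.mem_union, Finset.mem_image, Finset.mem_image] at hx
    rcases hx with ⟨i, _, rfl⟩ | ⟨i, _, rfl⟩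
    · exact hM.haW i
    · exact hM.hbW i
  have h1 := Finset.card_le_card hsub
  rw [Finset.card_union_of_disjoint hdisj, Finset.card_image_of_injective _ hM.ha,
    Finset.card_image_of_injective _ hM.hb, Finset.card_univ, Fintype.card_fin] at h1
  omega

/-- the unmatched vertices -/
theorem card_unmatched {V : Type} [DecidableEq V] (W : Finset V) {k : ℕ} (a b : Fin k → V) :
    W.card ≤ (W.filter (fun u => ∀ i, u ≠ a i ∧ u ≠ b i)).card + 2 * k := by
  have hsub : W ⊆ W.filter (fun u => ∀ i, u ≠ a i ∧ u ≠ b i) ∪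
      (Finset.univ.image a ∪ Finset.univ.image b) := by
    intro x hx
    rw [Finset.mem_union, Finset.mem_filter, Finset.mem_union, Finset.mem_image, Finset.mem_image]
    by_cases h : ∀ i, x ≠ a i ∧ x ≠ b i
    · exact Or.inl ⟨hx, h⟩
    · right
      push Not at h
      obtain ⟨i, hi⟩ := h
      by_cases h1 : x = a i
      · exact Or.inl ⟨i, Finset.mem_univ _, h1.symm⟩
      · exact Or.inr ⟨i, Finset.mem_univ _, (hi h1).symm⟩
  have h1 := Finset.card_le_card hsub
  have h2 := Finset.card_union_le (W.filter (fun u => ∀ i, u ≠ a i ∧ u ≠ b i))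
    (Finset.univ.image a ∪ Finset.univ.image b)
  have h3 := Finset.card_union_le (Finset.univ.image a) (Finset.univ.image b)
  have h4 : (Finset.univ.image a).card ≤ k := by
    simpa using Finset.card_image_le (s := (Finset.univ : Finset (Fin k))) (f := a)
  have h5 : (Finset.univ.image b).card ≤ k := by
    simpa using Finset.card_image_le (s := (Finset.univ : Finset (Fin k))) (f := b)
  omega

/-- real lower bound for an iterated truncated subtraction -/
theorem le_cast_sub5 (w k c D m : ℕ) :
    (w : ℝ) - k - c - D - m - 1 ≤ ((w - k - c - D - m - 1 : ℕ) : ℝ) := by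
  have h : w ≤ (w - k - c - D - m - 1) + k + c + D + m + 1 := by omega
  have h' : (w : ℝ) ≤ (((w - k - c - D - m - 1) + k + c + D + m + 1 : ℕ) : ℝ) := by
    exact_mod_cast h
  push_cast at h' ⊢
  linarith

/-- TASK FIN (final theorem from BD, CL, P, M, X, HD, N). -/
theorem final (ε : ℝ) (hε : 0 < ε) :
    ∃ n₀ : ℕ, ∀ (V : Type) [Fintype V] [DecidableEq V] (G : SimpleGraph V),
      n₀ ≤ Fintype.card V →
      (Gᶜ.edgeSet.ncard : ℝ) ≤ (Fintype.card V : ℝ) ^ (11 / 6 - ε) →
      ∃ k : ℕ, MuGE G k ∧ (1 - ε) * (G.chromaticNumber.toNat : ℝ) ≤ k ∧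
        (G.chromaticNumber.toNat : ℝ) - ε * Fintype.card V ≤ k ∧
        (1 / 2 - ε) * (Fintype.card V : ℝ) ≤ k := by
  obtain ⟨e, he, he4, hee⟩ : ∃ e : ℝ, 0 < e ∧ e ≤ 1 / 4 ∧ e ≤ ε :=
    ⟨min ε (1 / 4), lt_min hε (by norm_num), min_le_right _ _, min_le_left _ _⟩
  obtain ⟨n0, hn0⟩ := numeric e (e / 8) he he4 (by positivity)
  refine ⟨max n0 1, fun V _ _ G hn hG => ?_⟩
  classical
  obtain ⟨D, K, m, hD, hK, h1, h2, h3, h4, h5⟩ :=
    hn0 (Fintype.card V) (le_trans (le_max_left _ _) hn)
  have hn1 : 1 ≤ Fintype.card V := le_trans (le_max_right _ _) hn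
  set n : ℕ := Fintype.card V with hndef
  have hn1' : (1 : ℝ) ≤ n := by exact_mod_cast hn1
  set η : ℝ := e / 8 with hη
  have hη0 : 0 < η := by positivity
  have hηn : 0 < η * n := by positivity
  have hD' : (1 : ℝ) ≤ D := by exact_mod_cast hD
  -- the vertices of small degree
  set W : Finset V := Finset.univ.filter (fun v => Gᶜ.degree v ≤ D) with hW
  have hhigh := card_high Gᶜ D hD
  have hWcard : (n : ℝ) - η * n ≤ W.card := by
    have ha : W.card + (Finset.univ.filter (fun v => D < Gᶜ.degree v)).card = n := by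
      have := Finset.card_filter_add_card_filter_not (s := (Finset.univ : Finset V))
        (fun v => Gᶜ.degree v ≤ D)
      simp only [not_le] at this
      rw [hW, this, Finset.card_univ]
    have hb : ((Finset.univ.filter (fun v => D < Gᶜ.degree v)).card : ℝ) * D ≤ η * n * D := by
      refine le_trans hhigh (le_trans ?_ h1)
      have hc : (n : ℝ) ^ (11 / 6 - ε) ≤ (n : ℝ) ^ (11 / 6 - e) :=
        Real.rpow_le_rpow_of_exponent_le hn1' (by linarith)
      linarith
    have hc : ((Finset.univ.filter (fun v => D < Gᶜ.degree v)).card : ℝ) ≤ η * n :=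
      le_of_mul_le_mul_right hb (by linarith)
    have hd : (W.card : ℝ) + ((Finset.univ.filter (fun v => D < Gᶜ.degree v)).card : ℝ) = n := by
      exact_mod_cast ha
    linarith
  have hWD : ∀ v ∈ W, Gᶜ.degree v ≤ D := by
    intro v hv
    rw [hW, Finset.mem_filter] at hv
    exact hv.2
  obtain ⟨k, a, b, t, hM⟩ := exists_mat Gᶜ W
  have h2k : 2 * k ≤ W.card := two_mul_le_card hM
  have hWn : W.card ≤ n := Finset.card_le_univ W
  have hkn : (k : ℝ) ≤ n / 2 := by
    have : ((2 * k : ℕ) : ℝ) ≤ (n : ℝ) := by exact_mod_cast le_trans h2k hWn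
    push_cast at this
    linarith
  have hchi : (G.chromaticNumber.toNat : ℝ) ≤ n - k := by
    have hcol : G.Colorable (n - k) := colorable_of_pairs G k a b hM.ha hM.hb hM.hab (by
      intro i hadj
      have := hM.adj i
      rw [SimpleGraph.compl_adj] at this
      exact this.2 hadj)
    have hle : G.chromaticNumber ≤ ((n - k : ℕ) : ℕ∞) := hcol.chromaticNumber_le
    have hle' : G.chromaticNumber.toNat ≤ n - k := by
      have := ENat.toNat_le_toNat hle (ENat.natCast_ne_top _)
      rwa [ENat.toNat_natCast] at this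
    have hkn' : k ≤ n := by omega
    have : (G.chromaticNumber.toNat : ℝ) ≤ ((n - k : ℕ) : ℝ) := by exact_mod_cast hle'
    rwa [Nat.cast_sub hkn'] at this
  have hη32 : η ≤ 1 / 32 := by rw [hη]; linarith
  have hηn32 : η * n ≤ 1 / 32 * n := mul_le_mul_of_nonneg_right hη32 (by linarith)
  have hm0 : (0 : ℝ) ≤ m := Nat.cast_nonneg m
  -- the main estimate
  have key : ∃ c : ℕ, MuGE G c ∧ (n : ℝ) - k - 4 * (η * n) ≤ c := by
    by_cases hk : η * n ≤ k
    · obtain ⟨hk2, hDK⟩ := h5 k hk
      obtain ⟨σ, bad, hbad, hσ⟩ := pairing Gᶜ D k K hk2 hK a b t hM.ha hM.hb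
        (fun i => hWD _ (hM.hbW i)) (fun i => hWD _ (hM.htW i))
      have hbad' : (bad.card : ℝ) ≤ 2 * D + η * n := by linarith
      have hne : k + bad.card < W.card := by
        have : ((k + bad.card : ℕ) : ℝ) < (W.card : ℝ) := by
          push_cast
          linarith
        exact_mod_cast this
      refine ⟨_, build G D K k m hK W hWD a b t hM σ bad hσ h4 hne, ?_⟩
      have := le_cast_sub5 W.card k bad.card D m
      linarith
    · push Not at hk
      have hU := card_unmatched W a b
      set U : Finset V := W.filter (fun u => ∀ i, u ≠ a i ∧ u ≠ b i) with hUdef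
      have hU' : (W.card : ℝ) ≤ U.card + 2 * k := by exact_mod_cast hU
      have hUpos : 0 < U.card := by
        have : (0 : ℝ) < U.card := by linarith
        exact_mod_cast this
      have hcl : ∀ u ∈ U, ∀ u' ∈ U, u ≠ u' → G.Adj u u' := by
        intro u hu u' hu' huu'
        rw [hUdef, Finset.mem_filter] at hu hu'
        have := hM.indep u hu.1 u' hu'.1 hu.2 hu'.2
        rw [SimpleGraph.compl_adj] at this
        by_contra hc
        exact this ⟨huu', hc⟩
      refine ⟨_, muGE_of_clique G U hcl (Finset.card_pos.mp hUpos), ?_⟩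
      rw [Nat.cast_sub hUpos]
      push_cast
      linarith
  obtain ⟨c, hc, hcc⟩ := key
  have h4η : 4 * (η * n) = e / 2 * n := by rw [hη]; ring
  rw [h4η] at hcc
  have hχ0 : (0 : ℝ) ≤ (G.chromaticNumber.toNat : ℝ) := Nat.cast_nonneg _
  have hen : e * n ≤ ε * n := mul_le_mul_of_nonneg_right hee (by linarith)
  have hen0 : 0 < e * n := by positivity
  refine ⟨c, hc, ?_, ?_, ?_⟩
  · have hstep : (1 - ε) * (G.chromaticNumber.toNat : ℝ) ≤
        (1 - e) * (G.chromaticNumber.toNat : ℝ) :=
      mul_le_mul_of_nonneg_right (by linarith) hχ0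
    refine le_trans hstep ?_
    by_cases hx : (G.chromaticNumber.toNat : ℝ) ≤ n / 2
    · have : (1 - e) * (G.chromaticNumber.toNat : ℝ) ≤ (1 - e) * (n / 2) :=
        mul_le_mul_of_nonneg_left hx (by linarith)
      linarith
    · push Not at hx
      have : e / 2 * n ≤ e * (G.chromaticNumber.toNat : ℝ) := by
        have := mul_le_mul_of_nonneg_left hx.le he.le
        linarith
      linarith
  · linarith
  · linarith

end Pool.Agent.H163R2.CdV
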